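import Pool.Agent.W737.SB.Defs

/-! Subtask SB-ENT (owner helper737): entries of a J-selfadjoint operator, quadratic fields. -/

set_option autoImplicit false

open Metric Set

namespace Pool.Agent.W216.SB.Ent

open Pool.Agent.W737.SB

variable {n : ℕ}

/-- the first basis vector -/
noncomputable def e0 (n : ℕ) : HH n := WithLp.toLp 2 ((1 : ℂ), (0 : V n))

/-- the inclusion of the second factor -/
noncomputable def io : V n →L[ℂ] HH n :=
  LinearMap.mkContinuous
    { toFun := fun x => WithLp.toLp 2 ((0 : ℂ), x)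
      map_add' := fun x y => by
        apply (WithLp.equiv 2 (ℂ × V n)).injective
        simp [WithLp.equiv]
      map_smul' := fun c x => by
        apply (WithLp.equiv 2 (ℂ × V n)).injective
        simp [WithLp.equiv] } 1 (fun x => by
          simp)

theorem io_fst (x : V n) : (io x).fst = 0 := rfl
theorem io_snd (x : V n) : (io x).snd = x := rfl
theorem e0_fst : (e0 n).fst = 1 := rfl
theorem e0_snd : (e0 n).snd = 0 := rfl

theorem ext' {x y : HH n} (h1 : x.fst = y.fst) (h2 : x.snd = y.snd) : x = y := by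
  apply (WithLp.equiv 2 (ℂ × V n)).injective
  exact Prod.ext h1 h2

theorem lift_eq (x : V n) : lift x = e0 n + io x := by
  apply ext'
  · show (1 : ℂ) = 1 + 0
    ring
  · show x = 0 + x
    simp

theorem dec (x : HH n) : x = x.fst • e0 n + io x.snd := by
  apply ext'
  · show x.fst = x.fst • (1 : ℂ) + 0
    simp
  · show x.snd = x.fst • (0 : V n) + x.snd
    simp

theorem norm_sq' (x : HH n) : ‖x‖ ^ 2 = ‖x.fst‖ ^ 2 + ‖x.snd‖ ^ 2 := by
  rw [WithLp.prod_norm_sq_eq_of_L2]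

theorem fst_le (x : HH n) : ‖x.fst‖ ≤ ‖x‖ := by
  apply le_of_sq_le_sq _ (norm_nonneg _)
  rw [norm_sq']
  nlinarith [sq_nonneg ‖x.snd‖]

theorem snd_le (x : HH n) : ‖x.snd‖ ≤ ‖x‖ := by
  apply le_of_sq_le_sq _ (norm_nonneg _)
  rw [norm_sq']
  nlinarith [sq_nonneg ‖x.fst‖]

theorem le_add' (x : HH n) : ‖x‖ ≤ ‖x.fst‖ + ‖x.snd‖ := by
  apply le_of_sq_le_sq _ (by positivity)
  rw [norm_sq']
  nlinarith [mul_nonneg (norm_nonneg x.fst) (norm_nonneg x.snd)]

theorem e0_norm : ‖e0 n‖ = 1 := by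
  have h := norm_sq' (e0 n)
  rw [e0_fst, e0_snd] at h
  simp at h
  rcases h with h | h
  · exact h
  · have := norm_nonneg (e0 n)
    linarith

theorem io_norm (x : V n) : ‖io x‖ = ‖x‖ := by
  have h := norm_sq' (io x)
  rw [io_fst, io_snd] at h
  simp at h
  exact h


/-- facts on the entries -/
theorem entries (M : HH n →L[ℂ] HH n) (hM : IsJ M) :
    ∃ (b : V n) (S : V n →L[ℂ] V n) (d : ℝ), Sym S ∧ (M (e0 n)).fst = -(d : ℂ) ∧
      (M (e0 n)).snd = b ∧ (∀ x, (M (io x)).fst = -(inner ℂ b x : ℂ)) ∧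
      (∀ x, (M (io x)).snd = S x) := by
  have h1 := hM (e0 n) (e0 n)
  have h2 : ∀ x, J (M (e0 n)) (io x) = J (e0 n) (M (io x)) := fun x => hM _ _
  have h3 : ∀ x y, J (M (io x)) (io y) = J (io x) (M (io y)) := fun x y => hM _ _
  simp only [J, e0_fst, e0_snd, io_fst, io_snd, inner_zero_left, inner_zero_right, mul_one,
    mul_zero, map_one, map_zero, one_mul, zero_mul, zero_sub, sub_zero] at h1 h2 h3
  obtain ⟨r, hr⟩ := Complex.conj_eq_iff_real.1 h1
  refine ⟨(M (e0 n)).snd, (WithLp.sndL 2 ℂ ℂ (V n)).comp (M.comp io), -r, ?_, ?_, rfl, ?_, ?_⟩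
  · intro x y
    have := h3 x y
    simpa using this
  · rw [hr]
    push_cast
    ring
  · intro x
    rw [← h2 x]
  · intro x
    rfl

theorem s_ent1 (M : HH n →L[ℂ] HH n) (hM : IsJ M) :
    ∃ (b : V n) (A : V n →L[ℂ] V n) (d : ℝ), Sym A ∧
    (∀ x, fld M x = qf b A x) ∧ ‖b‖ ≤ ‖M‖ ∧ ‖A‖ ≤ 2 * ‖M‖ ∧
    |d ^ 2 - ‖b‖ ^ 2| ≤ ‖M.comp M‖ ∧
    ‖A b - ((2 * d : ℝ) : ℂ) • b‖ ≤ ‖M.comp M‖ ∧
    (∀ x, ‖A (A x) - ((2 * d : ℝ) : ℂ) • A x + ((d ^ 2 : ℝ) : ℂ) • x - (inner ℂ b x : ℂ) • b‖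
      ≤ ‖M.comp M‖ * ‖x‖) ∧
    ‖M‖ ^ 2 ≤ 20 * (‖b‖ ^ 2 + ‖M.comp M‖) := by
  obtain ⟨b, S, d, hS, h00, h10, h01, h11⟩ := entries M hM
  -- the values
  have hMe : M (e0 n) = (-(d : ℂ)) • e0 n + io b := by
    rw [dec (M (e0 n)), h00, h10]
  have hMi : ∀ x, M (io x) = (-(inner ℂ b x : ℂ)) • e0 n + io (S x) := by
    intro x
    rw [dec (M (io x)), h01, h11]
  have hMMe : M (M (e0 n)) = (((d ^ 2 : ℝ) : ℂ) - (inner ℂ b b : ℂ)) • e0 n
      + io (S b - (d : ℂ) • b) := by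
    rw [hMe, map_add, map_smul, hMi, hMe, map_sub, map_smul]
    push_cast
    module
  have hMMi : ∀ x, (M (M (io x))).snd = S (S x) - (inner ℂ b x : ℂ) • b := by
    intro x
    have : M (M (io x)) = (-(inner ℂ b x : ℂ)) • ((-(d : ℂ)) • e0 n + io b)
        + ((-(inner ℂ b (S x) : ℂ)) • e0 n + io (S (S x))) := by
      rw [hMi, map_add, map_smul, hMi, hMe]
    rw [this]
    show (-(inner ℂ b x : ℂ)) • ((-(d : ℂ)) • (0 : V n) + b)
        + ((-(inner ℂ b (S x) : ℂ)) • (0 : V n) + S (S x)) = _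
    module
  have hcomp : ∀ v, ‖M (M v)‖ ≤ ‖M.comp M‖ * ‖v‖ := fun v => (M.comp M).le_opNorm v
  have hce : ‖M (M (e0 n))‖ ≤ ‖M.comp M‖ := by
    have := hcomp (e0 n)
    rwa [e0_norm, mul_one] at this
  have hn1 : |d ^ 2 - ‖b‖ ^ 2| ≤ ‖M.comp M‖ := by
    have h1 : (M (M (e0 n))).fst = ((d ^ 2 - ‖b‖ ^ 2 : ℝ) : ℂ) := by
      rw [hMMe]
      show (((d ^ 2 : ℝ) : ℂ) - (inner ℂ b b : ℂ)) • (1 : ℂ) + 0 = _
      rw [inner_self_eq_norm_sq_to_K]
      simp
    have h2 := (fst_le (M (M (e0 n)))).trans hce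
    rw [h1, Complex.norm_real, Real.norm_eq_abs] at h2
    exact h2
  have hn2 : ‖S b - (d : ℂ) • b‖ ≤ ‖M.comp M‖ := by
    have h1 : (M (M (e0 n))).snd = S b - (d : ℂ) • b := by
      rw [hMMe]
      show (((d ^ 2 : ℝ) : ℂ) - (inner ℂ b b : ℂ)) • (0 : V n) + (S b - (d : ℂ) • b) = _
      simp
    have h2 := (snd_le (M (M (e0 n)))).trans hce
    rw [h1] at h2
    exact h2
  have hn3 : ∀ x, ‖S (S x) - (inner ℂ b x : ℂ) • b‖ ≤ ‖M.comp M‖ * ‖x‖ := by
    intro x
    have h2 := (snd_le (M (M (io x)))).trans (hcomp (io x))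
    rwa [hMMi, io_norm] at h2
  have hMe_le : ‖M (e0 n)‖ ≤ ‖M‖ := by
    have := M.le_opNorm (e0 n)
    rwa [e0_norm, mul_one] at this
  have hb : ‖b‖ ≤ ‖M‖ := by
    rw [← h10]
    exact (snd_le _).trans hMe_le
  have hd : |d| ≤ ‖M‖ := by
    have h1 := (fst_le (M (e0 n))).trans hMe_le
    rw [h00, norm_neg, Complex.norm_real, Real.norm_eq_abs] at h1
    exact h1
  have hSn : ∀ x, ‖S x‖ ≤ ‖M‖ * ‖x‖ := by
    intro x
    have h1 := (snd_le (M (io x))).trans (M.le_opNorm (io x))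
    rwa [h11, io_norm] at h1
  refine ⟨b, S + (d : ℂ) • ContinuousLinearMap.id ℂ (V n), d, ?_, ?_, hb, ?_, hn1, ?_, ?_, ?_⟩
  · intro x y
    have := hS x y
    simp only [ContinuousLinearMap.add_apply, ContinuousLinearMap.smul_apply,
      ContinuousLinearMap.id_apply, inner_add_left, inner_add_right, inner_smul_left,
      inner_smul_right, this, Complex.conj_ofReal]
  · intro x
    have h1 : M (lift x) = (-(d : ℂ) - (inner ℂ b x : ℂ)) • e0 n + io (b + S x) := by
      rw [lift_eq, map_add, hMe, hMi, map_add]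
      module
    rw [fld, h1]
    show ((-(d : ℂ) - (inner ℂ b x : ℂ)) • (0 : V n) + (b + S x))
      - ((-(d : ℂ) - (inner ℂ b x : ℂ)) • (1 : ℂ) + 0) • x = qf b _ x
    simp only [qf, ContinuousLinearMap.add_apply, ContinuousLinearMap.smul_apply,
      ContinuousLinearMap.id_apply, smul_eq_mul, mul_one, add_zero]
    module
  · apply ContinuousLinearMap.opNorm_le_bound _ (by positivity)
    intro x
    calc ‖(S + (d : ℂ) • ContinuousLinearMap.id ℂ (V n)) x‖ = ‖S x + (d : ℂ) • x‖ := by simp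
      _ ≤ ‖S x‖ + ‖(d : ℂ) • x‖ := norm_add_le _ _
      _ ≤ ‖M‖ * ‖x‖ + ‖M‖ * ‖x‖ := by
          apply add_le_add (hSn x)
          rw [norm_smul, Complex.norm_real, Real.norm_eq_abs]
          exact mul_le_mul_of_nonneg_right hd (norm_nonneg _)
      _ = 2 * ‖M‖ * ‖x‖ := by ring
  · have : (S + (d : ℂ) • ContinuousLinearMap.id ℂ (V n)) b - ((2 * d : ℝ) : ℂ) • b
        = S b - (d : ℂ) • b := by
      simp only [ContinuousLinearMap.add_apply, ContinuousLinearMap.smul_apply,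
        ContinuousLinearMap.id_apply]
      push_cast
      module
    rw [this]
    exact hn2
  · intro x
    have : (S + (d : ℂ) • ContinuousLinearMap.id ℂ (V n))
        ((S + (d : ℂ) • ContinuousLinearMap.id ℂ (V n)) x)
        - ((2 * d : ℝ) : ℂ) • (S + (d : ℂ) • ContinuousLinearMap.id ℂ (V n)) x
        + ((d ^ 2 : ℝ) : ℂ) • x - (inner ℂ b x : ℂ) • b
        = S (S x) - (inner ℂ b x : ℂ) • b := by
      simp only [ContinuousLinearMap.add_apply, ContinuousLinearMap.smul_apply,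
        ContinuousLinearMap.id_apply, map_add, map_smul]
      push_cast
      module
    rw [this]
    exact hn3 x
  · -- the norm bound
    set K : ℝ := ‖b‖ ^ 2 + ‖M.comp M‖ with hK
    have hK0 : 0 ≤ K := by positivity
    have hbK : ‖b‖ ≤ Real.sqrt K := by
      apply Real.le_sqrt_of_sq_le
      rw [hK]
      have := norm_nonneg (M.comp M)
      linarith
    have hdK : |d| ≤ Real.sqrt K := by
      apply Real.le_sqrt_of_sq_le
      rw [sq_abs, hK]
      have := (abs_le.1 hn1).2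
      linarith
    have hSK : ∀ x, ‖S x‖ ≤ Real.sqrt K * ‖x‖ := by
      intro x
      have h1 : ‖S x‖ ^ 2 ≤ K * ‖x‖ ^ 2 := by
        have h2 : ((‖S x‖ ^ 2 : ℝ) : ℂ) = inner ℂ x (S (S x)) := by
          have h3 := hS x (S x)
          rw [← h3, inner_self_eq_norm_sq_to_K]
          push_cast
          rfl
        have h4 : ‖S x‖ ^ 2 ≤ ‖x‖ * ‖S (S x)‖ := by
          have h5 := norm_inner_le_norm (𝕜 := ℂ) x (S (S x))
          rw [← h2, Complex.norm_real, Real.norm_eq_abs, abs_of_nonneg (by positivity)] at h5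
          exact h5
        have h6 : ‖S (S x)‖ ≤ K * ‖x‖ := by
          calc ‖S (S x)‖ = ‖(S (S x) - (inner ℂ b x : ℂ) • b) + (inner ℂ b x : ℂ) • b‖ := by
                congr 1; abel
            _ ≤ ‖S (S x) - (inner ℂ b x : ℂ) • b‖ + ‖(inner ℂ b x : ℂ) • b‖ := norm_add_le _ _
            _ ≤ ‖M.comp M‖ * ‖x‖ + (‖b‖ * ‖x‖) * ‖b‖ := by
                apply add_le_add (hn3 x)
                rw [norm_smul]
                exact mul_le_mul_of_nonneg_right (norm_inner_le_norm _ _) (norm_nonneg _)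
            _ = K * ‖x‖ := by rw [hK]; ring
        nlinarith [norm_nonneg x]
      apply le_of_sq_le_sq _ (by positivity)
      rw [mul_pow, Real.sq_sqrt hK0]
      exact h1
    have hMK : ‖M‖ ≤ 4 * Real.sqrt K := by
      apply ContinuousLinearMap.opNorm_le_bound _ (by positivity)
      intro x
      have h1 : M x = (x.fst * (-(d : ℂ)) - (inner ℂ b x.snd : ℂ)) • e0 n
          + io (x.fst • b + S x.snd) := by
        conv_lhs => rw [dec x]
        rw [map_add, map_smul, hMe, hMi, map_add, map_smul]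
        module
      have h2 := le_add' (M x)
      have h3 : (M x).fst = x.fst * (-(d : ℂ)) - (inner ℂ b x.snd : ℂ) := by
        rw [h1]
        show (x.fst * (-(d : ℂ)) - (inner ℂ b x.snd : ℂ)) • (1 : ℂ) + 0 = _
        simp
      have h4 : (M x).snd = x.fst • b + S x.snd := by
        rw [h1]
        show (x.fst * (-(d : ℂ)) - (inner ℂ b x.snd : ℂ)) • (0 : V n) + (x.fst • b + S x.snd) = _
        simp
      rw [h3, h4] at h2
      have hx1 := fst_le x
      have hx2 := snd_le x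
      have hs := Real.sqrt_nonneg K
      have h5 : ‖x.fst * (-(d : ℂ)) - (inner ℂ b x.snd : ℂ)‖
          ≤ ‖x‖ * Real.sqrt K + Real.sqrt K * ‖x‖ := by
        refine (norm_sub_le _ _).trans (add_le_add ?_ ?_)
        · rw [norm_mul, norm_neg, Complex.norm_real, Real.norm_eq_abs]
          exact mul_le_mul hx1 hdK (abs_nonneg _) (norm_nonneg _)
        · exact (norm_inner_le_norm _ _).trans (mul_le_mul hbK hx2 (norm_nonneg _) hs)
      have h6 : ‖x.fst • b + S x.snd‖ ≤ ‖x‖ * Real.sqrt K + Real.sqrt K * ‖x‖ := by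
        refine (norm_add_le _ _).trans (add_le_add ?_ ?_)
        · rw [norm_smul]
          exact mul_le_mul hx1 hbK (norm_nonneg _) (norm_nonneg _)
        · exact (hSK _).trans (mul_le_mul_of_nonneg_left hx2 hs)
      linarith
    have h7 : ‖M‖ ^ 2 ≤ (4 * Real.sqrt K) ^ 2 := pow_le_pow_left₀ (norm_nonneg _) hMK 2
    rw [mul_pow, Real.sq_sqrt hK0] at h7
    linarith

theorem s_ent2 (b : V n) (A : V n →L[ℂ] V n) (hA : Sym A) : ∃ M : HH n →L[ℂ] HH n, IsJ M ∧
    (∀ x, fld M x = qf b A x) ∧ ‖M‖ ≤ 2 * ‖b‖ + ‖A‖ := by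
  set M : HH n →L[ℂ] HH n :=
    (ContinuousLinearMap.smulRight (WithLp.fstL 2 ℂ ℂ (V n)) (io b)
      + io.comp (A.comp (WithLp.sndL 2 ℂ ℂ (V n)))
      - ContinuousLinearMap.smulRight ((innerSL ℂ b).comp (WithLp.sndL 2 ℂ ℂ (V n))) (e0 n)) with hMd
  have hM1 : ∀ x, M x = x.fst • io b + io (A x.snd) - (inner ℂ b x.snd : ℂ) • e0 n := by
    intro x
    rfl
  have hf : ∀ x, (M x).fst = -(inner ℂ b x.snd : ℂ) := by
    intro x
    rw [hM1]
    show x.fst • (0 : ℂ) + 0 - (inner ℂ b x.snd : ℂ) • (1 : ℂ) = _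
    simp
  have hs : ∀ x, (M x).snd = x.fst • b + A x.snd := by
    intro x
    rw [hM1]
    show x.fst • b + A x.snd - (inner ℂ b x.snd : ℂ) • (0 : V n) = _
    simp
  refine ⟨M, ?_, ?_, ?_⟩
  · intro x y
    have := hA x.snd y.snd
    simp only [J, hf, hs, inner_add_left, inner_add_right, inner_smul_left, inner_smul_right,
      this, map_neg, inner_conj_symm]
    ring
  · intro x
    rw [fld, hs, hf]
    show (1 : ℂ) • b + A x - (-(inner ℂ b x : ℂ)) • x = qf b A x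
    rw [qf]
    module
  · apply ContinuousLinearMap.opNorm_le_bound _ (by positivity)
    intro x
    have h2 := le_add' (M x)
    rw [hf, hs] at h2
    have hx1 := fst_le x
    have hx2 := snd_le x
    have h5 : ‖-(inner ℂ b x.snd : ℂ)‖ ≤ ‖b‖ * ‖x‖ := by
      rw [norm_neg]
      exact (norm_inner_le_norm _ _).trans (mul_le_mul_of_nonneg_left hx2 (norm_nonneg _))
    have h6 : ‖x.fst • b + A x.snd‖ ≤ ‖x‖ * ‖b‖ + ‖A‖ * ‖x‖ := by
      refine (norm_add_le _ _).trans (add_le_add ?_ ?_)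
      · rw [norm_smul]
        exact mul_le_mul_of_nonneg_right hx1 (norm_nonneg _)
      · exact (A.le_opNorm _).trans (mul_le_mul_of_nonneg_left hx2 (norm_nonneg _))
    linarith

theorem t_ent : S_ent :=
  ⟨fun _ M hM => s_ent1 M hM, fun _ b A hA => s_ent2 b A hA⟩

theorem t_qu : S_qu := by
  intro n b c A D δ r hr hr1 hδ h
  have h0 : ‖b - c‖ ≤ δ := by
    have := h 0 (by simpa using hr.le)
    simpa [qf] using this
  refine ⟨h0, ?_⟩
  apply ContinuousLinearMap.opNorm_le_bound _ (by positivity)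
  intro x
  by_cases hx : x = 0
  · subst hx
    simp
  have hxp : 0 < ‖x‖ := norm_pos_iff.2 hx
  have key : ∀ y : V n, ‖y‖ ≤ r → ‖(A - D) y‖ ≤ 3 * δ := by
    intro y hy
    have h1 := h y hy
    have h2 : (A - D) y = (qf b A y - qf c D y) - (b - c) - (inner ℂ (b - c) y : ℂ) • y := by
      simp only [qf, ContinuousLinearMap.sub_apply, inner_sub_left]
      module
    rw [h2]
    have h3 : ‖(inner ℂ (b - c) y : ℂ) • y‖ ≤ δ := by
      rw [norm_smul]
      have h4 := norm_inner_le_norm (𝕜 := ℂ) (b - c) y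
      have h5 : ‖y‖ ≤ 1 := hy.trans hr1
      calc ‖(inner ℂ (b - c) y : ℂ)‖ * ‖y‖ ≤ (‖b - c‖ * ‖y‖) * ‖y‖ :=
            mul_le_mul_of_nonneg_right h4 (norm_nonneg _)
        _ ≤ (δ * 1) * 1 := by gcongr
        _ = δ := by ring
    calc _ ≤ ‖(qf b A y - qf c D y) - (b - c)‖ + ‖(inner ℂ (b - c) y : ℂ) • y‖ :=
          norm_sub_le _ _
      _ ≤ (‖qf b A y - qf c D y‖ + ‖b - c‖) + ‖(inner ℂ (b - c) y : ℂ) • y‖ := by
          gcongr
          exact norm_sub_le _ _
      _ ≤ 3 * δ := by linarith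
  have h1 := key (((r / ‖x‖ : ℝ) : ℂ) • x) (by
    rw [norm_smul, Complex.norm_real, Real.norm_eq_abs, abs_of_pos (by positivity)]
    rw [div_mul_cancel₀ _ hxp.ne'])
  rw [map_smul, norm_smul, Complex.norm_real, Real.norm_eq_abs, abs_of_pos (by positivity)] at h1
  rw [div_mul_eq_mul_div, div_le_iff₀ hxp] at h1
  rw [div_mul_eq_mul_div, le_div_iff₀ hr]
  linarith

end Pool.Agent.W216.SB.Ent
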